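import Pool.Agent.KS6_65.CF.Hard
import Pool.Agent.KS6_65.CF.Alg

/-! For all `s ≥ 4` and `t ≥ 3` the contraction problems of the star with `s` leaves and of the
disjoint union of a clique with `t` vertices and an isolated vertex are W[2]-hard, but the problem
of the pair is fixed-parameter tractable; and so is the problem of every finite family which has a
member that is an induced subgraph of a star and a member that is an induced subgraph of a clique
plus an isolated vertex. -/

namespace Pool.Agent.Results.MP_09c861_lc.AllStarCliquePairs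

open Pool.Agent.Cx Pool.Agent.KS6_65.CF SimpleGraph

theorem result :
    (∀ s, 4 ≤ s → W2Hard (FreeCon {starK s}) Prod.snd) ∧
    (∀ t, 3 ≤ t → W2Hard (FreeCon {cliqueK1 t}) Prod.snd) ∧
    (∀ F : Set (Σ n : ℕ, SimpleGraph (Fin n)), F.Finite →
      (∃ H ∈ F, ∃ s, Nonempty (H.2 ↪g (starK s).2)) →
      (∃ H ∈ F, ∃ t, Nonempty (H.2 ↪g (cliqueK1 t).2)) → InFPT (FreeCon F) Prod.snd) ∧
    ∀ s t, InFPT (FreeCon {starK s, cliqueK1 t}) Prod.snd := by
  have key : ∀ F : Set (Σ n : ℕ, SimpleGraph (Fin n)), F.Finite →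
      (∃ H ∈ F, ∃ s, Nonempty (H.2 ↪g (starK s).2)) →
      (∃ H ∈ F, ∃ t, Nonempty (H.2 ↪g (cliqueK1 t).2)) → InFPT (FreeCon F) Prod.snd := by
    rintro F hF ⟨H, hH, s, hs⟩ ⟨H', hH', t, ht⟩
    exact fpt hF ⟨H, hH, hs⟩ ⟨H', hH', ht⟩
  refine ⟨fun s hs => hard_star hs, fun t ht => hard_clique ht, key, fun s t => ?_⟩
  refine key _ ((Set.finite_singleton _).insert _) ⟨starK s, Set.mem_insert _ _, s, ⟨Embedding.refl⟩⟩
    ⟨cliqueK1 t, Set.mem_insert_of_mem _ rfl, t, ⟨Embedding.refl⟩⟩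

end Pool.Agent.Results.MP_09c861_lc.AllStarCliquePairs
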